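import Mathlib.Algebra.Module.Submodule.Basic
import Mathlib.Algebra.Module.LinearMap.Basic
import Mathlib.Tactic.Abel
import Mathlib.Tactic.Module
import Mathlib.Tactic.Linarith

/-!
# Lemma Z and the global two-term lift in an abstract bicomplex

`G a b K` plays the role of `Λ^a V ⊗ Λ^b A ⊗ P_K` (`V` = forms of degree `e + 1`, `A` = forms of
degree `e`), `dV`, `dA` are the two Koszul differentials (they anticommute), `mc` is multiplication
by a linear form `c`.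
-/

set_option autoImplicit false

namespace Pool.Agent.H96.OP

/-- An abstract bicomplex with the degrees of `Λ^a V ⊗ Λ^b A ⊗ P_K`. -/
structure BiC (k M : Type*) [CommRing k] [AddCommGroup M] [Module k M] (e : ℕ) where
  G : ℕ → ℕ → ℕ → Submodule k M
  dV : M →ₗ[k] M
  dA : M →ₗ[k] M
  dVV : ∀ x, dV (dV x) = 0
  dAA : ∀ x, dA (dA x) = 0
  anti : ∀ x, dV (dA x) = -dA (dV x)
  dV_mem : ∀ {a b K x}, x ∈ G (a + 1) b K → dV x ∈ G a b (K + (e + 1))
  dV_zero : ∀ {b K x}, x ∈ G 0 b K → dV x = 0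
  dA_mem : ∀ {a b K x}, x ∈ G a (b + 1) K → dA x ∈ G a b (K + e)
  dA_zero : ∀ {a K x}, x ∈ G a 0 K → dA x = 0

namespace BiC

variable {k M : Type*} [CommRing k] [AddCommGroup M] [Module k M] {e : ℕ} (S : BiC k M e)

/-- `dA`-exactness: closed elements of `G a b (K + e)` come from `G a (b+1) K`. -/
def ExA (a b K : ℕ) : Prop := ∀ x ∈ S.G a b (K + e), S.dA x = 0 → ∃ y ∈ S.G a (b + 1) K, S.dA y = x

/-- `dV`-exactness: closed elements of `G a b (K + (e + 1))` come from `G (a+1) b K`. -/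
def ExV (a b K : ℕ) : Prop :=
  ∀ x ∈ S.G a b (K + (e + 1)), S.dV x = 0 → ∃ y ∈ S.G (a + 1) b K, S.dV y = x

/-- **Lemma Z** (helper34, note 1711).  A bi-closed element of `G s i (K + 2e + 1)` is `dV` of a
`dA`-closed element of `G (s+1) i (K + e)`. -/
theorem lemmaZ : ∀ (s i K : ℕ),
    (∀ j ≤ s, S.ExA (s - j) (i + j) (K + (e + 1) + j)) →
    (∀ j ≤ s, S.ExV (s - j) (i + 1 + j) (K + j)) →
    ∀ x ∈ S.G s i (K + (e + 1) + e), S.dV x = 0 → S.dA x = 0 →
      ∃ y ∈ S.G (s + 1) i (K + e), S.dA y = 0 ∧ S.dV y = x := by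
  intro s
  induction s with
  | zero =>
    intro i K hA hV x hx _ hxA
    obtain ⟨w, hw, hwx⟩ := hA 0 le_rfl x (by simpa using hx) hxA
    obtain ⟨y, hy, hyw⟩ := hV 0 le_rfl w (by simpa using hw) (S.dV_zero (by simpa using hw))
    refine ⟨-S.dA y, (S.G _ _ _).neg_mem (S.dA_mem (by simpa using hy)), ?_, ?_⟩
    · rw [map_neg, S.dAA, neg_zero]
    · rw [map_neg, S.anti, neg_neg, hyw, hwx]
  | succ s ih =>
    intro i K hA hV x hx hxV hxA
    obtain ⟨w, hw, hwx⟩ := hA 0 (Nat.zero_le _) x (by simpa using hx) hxA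
    have hw' : w ∈ S.G (s + 1) (i + 1) (K + (e + 1)) := by simpa using hw
    have hdw : S.dV w ∈ S.G s (i + 1) (K + 1 + (e + 1) + e) := by
      have := S.dV_mem hw'
      rwa [show K + 1 + (e + 1) + e = K + (e + 1) + (e + 1) by omega]
    have hdwA : S.dA (S.dV w) = 0 := by
      have h := S.anti w
      rw [hwx, hxV] at h
      exact neg_eq_zero.1 h.symm
    obtain ⟨y', hy', hy'A, hy'V⟩ := ih (i + 1) (K + 1)
      (fun j hj => by
        have := hA (j + 1) (by omega)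
        rwa [show s + 1 - (j + 1) = s - j by omega, show i + (j + 1) = i + 1 + j by omega,
          show K + (e + 1) + (j + 1) = K + 1 + (e + 1) + j by omega] at this)
      (fun j hj => by
        have := hV (j + 1) (by omega)
        rwa [show s + 1 - (j + 1) = s - j by omega, show i + 1 + (j + 1) = i + 1 + 1 + j by omega,
          show K + (j + 1) = K + 1 + j by omega] at this)
      (S.dV w) hdw (S.dVV w) hdwA
    have hy'' : y' ∈ S.G (s + 1) (i + 1) (K + (e + 1)) := by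
      rwa [show K + (e + 1) = K + 1 + e by omega]
    obtain ⟨z, hz, hzw⟩ := hV 0 (Nat.zero_le _) (w - y')
      (by simpa using (S.G _ _ _).sub_mem hw' hy'') (by rw [map_sub, hy'V, sub_self])
    refine ⟨-S.dA z, (S.G _ _ _).neg_mem (S.dA_mem (by simpa using hz)), ?_, ?_⟩
    · rw [map_neg, S.dAA, neg_zero]
    · rw [map_neg, S.anti, neg_neg, hzw, map_sub, hwx, hy'A, sub_zero]

/-- **The global lift.**  `u` is `c^(j) b ∧ z`, `ρ` is `c^(j-1) (∂'' b) ∧ z`; the result is a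
`dV + c dA`-cycle with two components whose leading one is `u` modulo `c`. -/
theorem lift {s m : ℕ} (mc : M →ₗ[k] M) (mcV : ∀ x, S.dV (mc x) = mc (S.dV x))
    (mcA : ∀ x, S.dA (mc x) = mc (S.dA x))
    (hA1 : S.ExA (s + 2) m (2 * e + 1))
    (hA2 : S.ExA (s + 1) (m + 1) (2 * e + 2))
    (hZA : ∀ j ≤ s, S.ExA (s - j) (m + 2 + j) (2 * e + 3 + j))
    (hZV : ∀ j ≤ s, S.ExV (s - j) (m + 3 + j) (e + 2 + j))
    {u ρ : M} (hρ : ρ ∈ S.G (s + 2) m (2 * e + 1 + e)) (huV : S.dV u = 0)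
    (huA : S.dA u = mc ρ) (hρA : S.dA ρ = 0) (hρV : S.dV ρ = 0) :
    ∃ y ∈ S.G (s + 2) (m + 1) (2 * e + 1), ∃ t ∈ S.G (s + 1) (m + 2) (2 * e + 2),
      S.dA y = ρ ∧ S.dV (u - mc y + t) + mc (S.dA (u - mc y + t)) = 0 := by
  obtain ⟨y, hy, hyρ⟩ := hA1 ρ hρ hρA
  have hdy : S.dV y ∈ S.G (s + 1) (m + 1) (2 * e + 2 + e) := by
    have := S.dV_mem hy
    rwa [show 2 * e + 2 + e = 2 * e + 1 + (e + 1) by omega]
  have hdyA : S.dA (S.dV y) = 0 := by
    have h := S.anti y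
    rw [hyρ, hρV] at h
    exact neg_eq_zero.1 h.symm
  obtain ⟨θ, hθ, hθy⟩ := hA2 _ hdy hdyA
  have hdθ : S.dV θ ∈ S.G s (m + 2) (e + 2 + (e + 1) + e) := by
    have := S.dV_mem hθ
    rwa [show e + 2 + (e + 1) + e = 2 * e + 2 + (e + 1) by omega]
  have hdθA : S.dA (S.dV θ) = 0 := by
    have h := S.anti θ
    rw [hθy, S.dVV] at h
    exact neg_eq_zero.1 h.symm
  obtain ⟨y', hy', hy'A, hy'V⟩ := S.lemmaZ s (m + 2) (e + 2)
    (fun j hj => by
      have := hZA j hj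
      rwa [show e + 2 + (e + 1) + j = 2 * e + 3 + j by omega])
    (fun j hj => by
      have := hZV j hj
      rwa [show m + 2 + 1 + j = m + 3 + j by omega])
    (S.dV θ) hdθ (S.dVV _) hdθA
  refine ⟨y, hy, θ - y', (S.G _ _ _).sub_mem hθ ?_, hyρ, ?_⟩
  · rwa [show e + 2 + e = 2 * e + 2 by omega] at hy'
  · simp only [map_add, map_sub, mcV, mcA, huV, huA, hyρ, hy'V, hy'A, hθy, map_zero]
    abel

/-- **Theorem 2 (b).**  `u` is `c^(j) b ∧ q ∧ z'`, `ρ` is `c^(j-1) (∂'' b) ∧ q ∧ z'`. -/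
theorem liftB {a m K : ℕ} (mc : M →ₗ[k] M) (mcV : ∀ x, S.dV (mc x) = mc (S.dV x))
    (mcA : ∀ x, S.dA (mc x) = mc (S.dA x)) (hA : S.ExA a m K)
    {u ρ : M} (hρ : ρ ∈ S.G a m (K + e)) (huA : S.dA u = mc ρ) (hρA : S.dA ρ = 0) :
    ∃ y ∈ S.G a (m + 1) K, S.dA (u - mc y) = 0 ∧
      S.dV (u - mc y) + mc (S.dA (u - mc y)) = S.dV u - mc (S.dV y) := by
  obtain ⟨y, hy, hyρ⟩ := hA ρ hρ hρA
  refine ⟨y, hy, ?_, ?_⟩
  · rw [map_sub, mcA, hyρ, huA, sub_self]
  · simp only [map_sub, mcV, mcA, hyρ, huA, sub_self, map_zero, add_zero]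

end BiC

end Pool.Agent.H96.OP
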