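import Mathlib.Tactic.Linarith
import Mathlib.Tactic.Ring
import Mathlib.Tactic.NormNum
import Mathlib.Tactic.IntervalCases
import Mathlib.Data.List.Basic

/-!
# The numerical part of note 1713 (all `d`, `k = 0`)

`G a b t r R` stands for `some constituent of the group `G_t(a,b)` has exactly `r` rows and first
row of length at most `R``.
-/

set_option autoImplicit false

namespace Pool.Agent.H96.OP.Num

/-- Exhaustive search: `dead d f N a t R rp = true` means that no chain starts in a state with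
`N` letters, at least `a` of them of degree `d`, coefficient degree `t`, first row at most `R` and
at most `rp` rows (search depth at most `f`). -/
def dead (d : ℕ) : ℕ → ℕ → ℕ → ℕ → ℕ → ℕ → Bool
  | 0, _, _, _, _, _ => false
  | f + 1, N, a, t, R, rp => (List.range (rp + 1)).all fun r =>
      decide (r < 2) || decide (N < r + t) || decide (r * R < (d - 1) * N + a + t) ||
        (decide (3 ≤ r) && decide (1 ≤ t) && dead d f (N - (r - 1)) (a - (r - 1)) (t - 1) (R - 1) r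
          && dead d f (N - r) (a - r) t (R - 1) r)

/-- The three properties of the relation `G`. -/
structure Props (d : ℕ) (G : ℕ → ℕ → ℕ → ℕ → ℕ → Prop) : Prop where
  size : ∀ a b t r R, G a b t r R → a * d + b * (d - 1) + t ≤ r * R
  rows : ∀ a b t r R, G a b t r R → 2 ≤ r ∧ r + t ≤ a + b
  step : ∀ a b t r R, 1 ≤ t → 3 ≤ r → G a b t r R → ∃ u v r', u ≤ a ∧ v ≤ b ∧ r' ≤ r ∧
    ((u + v + 1 = r ∧ G (a - u) (b - v) (t - 1) r' (R - 1)) ∨
      (u + v = r ∧ G (a - u) (b - v) t r' (R - 1)))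

theorem dead_sound {d : ℕ} {G : ℕ → ℕ → ℕ → ℕ → ℕ → Prop} (hd : 1 ≤ d) (h : Props d G) (f : ℕ) :
    ∀ N a₀ t R rp a b r, dead d f N a₀ t R rp = true → a + b = N → a₀ ≤ a → r ≤ rp →
      ¬ G a b t r R := by
  induction f with
  | zero => intro N a₀ t R rp a b r hdead; simp [dead] at hdead
  | succ f ih =>
    intro N a₀ t R rp a b r hdead hN ha hr hG
    obtain ⟨e, rfl⟩ : ∃ e, d = e + 1 := ⟨d - 1, by omega⟩
    have hsz := h.size _ _ _ _ _ hG
    obtain ⟨h2, hrt⟩ := h.rows _ _ _ _ _ hG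
    simp only [dead, List.all_eq_true, List.mem_range] at hdead
    have h1 := hdead r (by omega)
    have hT : e * N + a + t = a * (e + 1) + b * e + t := by subst hN; ring
    have hT' : (e + 1 - 1) * N + a₀ + t ≤ r * R := by
      have : (e + 1 - 1) * N + a₀ + t ≤ e * N + a + t := by
        simp only [Nat.add_sub_cancel]; omega
      refine this.trans ?_
      rw [hT]
      simpa using hsz
    have e1 : decide (r < 2) = false := by simp; omega
    have e2 : decide (N < r + t) = false := by simp; omega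
    have e3 : decide (r * R < (e + 1 - 1) * N + a₀ + t) = false := by simpa using hT'
    rw [e1, e2, e3] at h1
    simp only [Bool.false_or, Bool.and_eq_true, decide_eq_true_eq] at h1
    obtain ⟨⟨⟨h3, ht⟩, hd1⟩, hd2⟩ := h1
    obtain ⟨u, v, r', hu, hv, hr', hcase⟩ := h.step _ _ _ _ _ ht h3 hG
    rcases hcase with ⟨huv, hG'⟩ | ⟨huv, hG'⟩
    · exact ih _ _ _ _ _ _ _ _ hd1 (by omega) (by omega) hr' hG'
    · exact ih _ _ _ _ _ _ _ _ hd2 (by omega) (by omega) hr' hG'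

/-- The finite check. -/
def check (D : ℕ) : Bool :=
  (List.range D).all fun d => decide (d < 2) || (List.range (3 * d)).all fun N =>
    decide (N < d + 2) || decide (3 * d - 2 < N) || (List.range N).all fun s =>
      decide (s < 2) || dead d 4 N (s + 1) d ((N - 1 - s) + 2 * (3 * d - 2 - N)) N

theorem check_eleven : check 11 = true := by decide +kernel

/-- The polynomial inequality for `d ≥ 11`. -/
theorem poly_ineq (d R : ℤ) (hd : 11 ≤ d) (_hR : d + 1 ≤ R) :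
    ((6 * d - 7 - R) * (R - d + 1) + 2 * R - d - 3) * ((R - d) * (R - d - 1)) <
      (d - 2) * R * (R - 1) ^ 2 := by
  obtain ⟨z, rfl⟩ : ∃ z, R = z + d := ⟨R - d, by ring⟩
  have hA : 0 < 8 * d ^ 2 - 80 * d + 92 := by nlinarith
  have hdisc : 0 < 4 * (8 * d ^ 2 - 80 * d + 92) * (7 * d ^ 4 - 40 * d ^ 3 + 64 * d ^ 2 - 32 * d) -
      (-60 * d ^ 2 + 192 * d - 192) ^ 2 := by
    obtain ⟨e, rfl⟩ : ∃ e, d = e + 11 := ⟨d - 11, by ring⟩
    have he : 0 ≤ e := by linarith
    ring_nf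
    positivity
  have key : 4 * (8 * d ^ 2 - 80 * d + 92) * (16 * ((d - 2) * (z + d) * (z + d - 1) ^ 2 -
      ((6 * d - 7 - (z + d)) * (z + d - d + 1) + 2 * (z + d) - d - 3) *
        ((z + d - d) * (z + d - d - 1)))) =
      4 * (8 * d ^ 2 - 80 * d + 92) * (4 * z ^ 2 - (8 * d - 6) * z - (3 * d ^ 2 - 4 * d)) ^ 2 +
      (2 * (8 * d ^ 2 - 80 * d + 92) * z + (-60 * d ^ 2 + 192 * d - 192)) ^ 2 +
      (4 * (8 * d ^ 2 - 80 * d + 92) * (7 * d ^ 4 - 40 * d ^ 3 + 64 * d ^ 2 - 32 * d) -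
        (-60 * d ^ 2 + 192 * d - 192) ^ 2) := by ring
  have hpos : 0 < 4 * (8 * d ^ 2 - 80 * d + 92) * (16 * ((d - 2) * (z + d) * (z + d - 1) ^ 2 -
      ((6 * d - 7 - (z + d)) * (z + d - d + 1) + 2 * (z + d) - d - 3) *
        ((z + d - d) * (z + d - d - 1)))) := by
    rw [key]
    have h1 : 0 ≤ 4 * (8 * d ^ 2 - 80 * d + 92) *
        (4 * z ^ 2 - (8 * d - 6) * z - (3 * d ^ 2 - 4 * d)) ^ 2 :=
      mul_nonneg (by linarith) (sq_nonneg _)
    have h2 := sq_nonneg (2 * (8 * d ^ 2 - 80 * d + 92) * z + (-60 * d ^ 2 + 192 * d - 192))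
    linarith
  have h3 := (mul_pos_iff_of_pos_left (by linarith : 0 < 4 * (8 * d ^ 2 - 80 * d + 92))).1 hpos
  linarith

/-- The chain of inequalities of the case `d ≥ 11`, three steps, as a statement on integers. -/
theorem numerics_int {d R N0 N1 N2 r0 r1 r2 : ℤ} (hd : 11 ≤ d) (hRR : N0 ≤ 6 * d - 7 - R)
    (hN2 : 0 < N2) (hR2 : 0 < R - 2)
    (E0 : (d - 1) * N0 + d + 3 ≤ r0 * R) (E1 : (d - 1) * N1 + (d - 1) ≤ r1 * (R - 1))
    (E2 : (d - 1) * N2 + (d - 2) ≤ r2 * (R - 2)) (F1 : N1 + r0 ≤ N0 + 1) (F2 : N2 + r1 ≤ N1 + 1)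
    (F3 : r2 + (d - 2) ≤ N2) : False := by
  -- `(d-2)(R-1) ≤ N2 (R-d-1)`
  have I2 : (d - 2) * (R - 1) ≤ N2 * (R - d - 1) := by
    have := mul_le_mul_of_nonneg_right F3 hR2.le
    linarith
  have hRd : 0 < R - d - 1 := by
    by_contra hneg
    have h1 : N2 * (R - d - 1) ≤ 0 := mul_nonpos_of_nonneg_of_nonpos hN2.le (by linarith)
    have h2 : 0 < (d - 2) * (R - 1) := mul_pos (by linarith) (by linarith)
    linarith
  have I1 : (R - 1) * N2 ≤ (N1 + 1) * (R - d) := by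
    have := mul_le_mul_of_nonneg_right F2 (by linarith : 0 ≤ R - 1)
    linarith
  have I0 : R * (N1 + 1) ≤ (6 * d - 7 - R) * (R - d + 1) + 2 * R - d - 3 := by
    have h1 : R * (N1 + 1) ≤ N0 * (R - d + 1) + 2 * R - d - 3 := by
      have := mul_le_mul_of_nonneg_right F1 (by linarith : 0 ≤ R)
      linarith
    have h2 := mul_le_mul_of_nonneg_right hRR (by linarith : 0 ≤ R - d + 1)
    linarith
  have J2 : (d - 2) * R * (R - 1) ^ 2 ≤ R * (R - 1) * (N2 * (R - d - 1)) := by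
    have hq : 0 ≤ R * (R - 1) := mul_nonneg (by linarith) (by linarith)
    calc (d - 2) * R * (R - 1) ^ 2 = R * (R - 1) * ((d - 2) * (R - 1)) := by ring
      _ ≤ _ := mul_le_mul_of_nonneg_left I2 hq
  have J1 : R * (R - 1) * (N2 * (R - d - 1)) ≤ R * ((N1 + 1) * (R - d)) * (R - d - 1) := by
    have hq : 0 ≤ R * (R - d - 1) := mul_nonneg (by linarith) (by linarith)
    calc R * (R - 1) * (N2 * (R - d - 1)) = R * (R - d - 1) * ((R - 1) * N2) := by ring
      _ ≤ R * (R - d - 1) * ((N1 + 1) * (R - d)) := mul_le_mul_of_nonneg_left I1 hq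
      _ = _ := by ring
  have J0 : R * ((N1 + 1) * (R - d)) * (R - d - 1) ≤
      ((6 * d - 7 - R) * (R - d + 1) + 2 * R - d - 3) * ((R - d) * (R - d - 1)) := by
    have hq : 0 ≤ (R - d) * (R - d - 1) := mul_nonneg (by linarith) (by linarith)
    calc R * ((N1 + 1) * (R - d)) * (R - d - 1) = (R * (N1 + 1)) * ((R - d) * (R - d - 1)) := by
          ring
      _ ≤ _ := mul_le_mul_of_nonneg_right I0 hq
  have := poly_ineq d R hd (by linarith)
  linarith

/-- The case `d ≥ 11`. -/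
theorem numerics_large {d : ℕ} {G : ℕ → ℕ → ℕ → ℕ → ℕ → Prop} (h : Props d G) (hd : 11 ≤ d)
    {s i j r : ℕ} (hs : 2 ≤ s) (hsum : s + i + j = 3 * d - 3)
    (hG : G (s + 1) i d r (i + 2 * j)) : False := by
  obtain ⟨e, rfl⟩ : ∃ e, d = e + 1 := ⟨d - 1, by omega⟩
  have he : (e + 1 : ℕ) - 1 = e := by omega
  -- step 0
  have hsz0 := h.size _ _ _ _ _ hG
  obtain ⟨h20, hrt0⟩ := h.rows _ _ _ _ _ hG
  rw [he] at hsz0
  have hr3 : 3 ≤ r := by
    by_contra hlt
    have hr2 : r = 2 := by omega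
    rw [hr2] at hsz0 hrt0
    -- `(e+1)(s+1) + i e + e + 1 ≤ 2 (i+2j)`, `s + 1 + i ≥ e + 3`
    have hk : 10 * (s + 1 + i) ≤ e * (s + 1 + i) := Nat.mul_le_mul_right _ (by omega)
    have hk2 : e * (e + 3) ≤ e * (s + 1 + i) := Nat.mul_le_mul_left _ (by omega)
    have hk3 : 10 * e ≤ e * e := Nat.mul_le_mul_right _ (by omega)
    have hexp : (s + 1) * (e + 1) + i * e + (e + 1) = e * (s + 1 + i) + (s + 1) + (e + 1) := by ring
    have hexp2 : e * (e + 3) = e * e + 3 * e := by ring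
    omega
  obtain ⟨u, v, r1, hu, hv, hr1, hcase⟩ := h.step _ _ _ _ _ (by omega) hr3 hG
  -- unify the two types
  obtain ⟨a1, b1, t1, hG1, hN1, ht1⟩ : ∃ a1 b1 t1, G a1 b1 t1 r1 (i + 2 * j - 1) ∧
      a1 + b1 + r ≤ s + 1 + i + 1 ∧ e ≤ t1 := by
    rcases hcase with ⟨huv, hG'⟩ | ⟨huv, hG'⟩
    · exact ⟨_, _, _, hG', by omega, by omega⟩
    · exact ⟨_, _, _, hG', by omega, by omega⟩
  have hsz1 := h.size _ _ _ _ _ hG1
  obtain ⟨h21, hrt1⟩ := h.rows _ _ _ _ _ hG1
  rw [he] at hsz1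
  have hexp1 : a1 * (e + 1) + b1 * e + t1 = e * (a1 + b1) + a1 + t1 := by ring
  have hr13 : 3 ≤ r1 := by
    by_contra hlt
    have hr2 : r1 = 2 := by omega
    rw [hr2] at hsz1 hrt1
    have hk2 : e * (e + 2) ≤ e * (a1 + b1) := Nat.mul_le_mul_left _ (by omega)
    have hk3 : 10 * e ≤ e * e := Nat.mul_le_mul_right _ (by omega)
    have hexp2 : e * (e + 2) = e * e + 2 * e := by ring
    omega
  obtain ⟨u', v', r2, hu', hv', hr2, hcase'⟩ := h.step _ _ _ _ _ (by omega) hr13 hG1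
  obtain ⟨a2, b2, t2, hG2, hN2, ht2⟩ : ∃ a2 b2 t2, G a2 b2 t2 r2 (i + 2 * j - 1 - 1) ∧
      a2 + b2 + r1 ≤ a1 + b1 + 1 ∧ e ≤ t2 + 1 := by
    rcases hcase' with ⟨huv, hG'⟩ | ⟨huv, hG'⟩
    · exact ⟨_, _, _, hG', by omega, by omega⟩
    · exact ⟨_, _, _, hG', by omega, by omega⟩
  have hsz2 := h.size _ _ _ _ _ hG2
  obtain ⟨h22, hrt2⟩ := h.rows _ _ _ _ _ hG2
  rw [he] at hsz2
  have hexp3 : a2 * (e + 1) + b2 * e + t2 = e * (a2 + b2) + a2 + t2 := by ring
  have hR2pos : 3 ≤ i + 2 * j := by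
    by_contra hlt
    have h0 : i + 2 * j - 1 - 1 = 0 := by omega
    rw [h0, mul_zero] at hsz2
    omega
  obtain ⟨R, hR⟩ : ∃ R : ℕ, i + 2 * j = R + 3 := ⟨i + 2 * j - 3, by omega⟩
  have hR1 : i + 2 * j - 1 = R + 2 := by omega
  have hR2 : i + 2 * j - 1 - 1 = R + 1 := by omega
  rw [hexp1, hR1] at hsz1
  rw [hexp3, hR2] at hsz2
  have hexp : (s + 1) * (e + 1) + i * e + (e + 1) = e * (s + 1 + i) + (s + 1) + (e + 1) := by ring
  rw [hexp, hR] at hsz0
  have hRR : (s + 1 + i) + (R + 3) + 7 ≤ 6 * (e + 1) := by omega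
  zify at hsz0 hsz1 hsz2 hN1 hN2 hRR hrt2 ht1 ht2 h22 hd hs
  refine numerics_int (d := (e : ℤ) + 1) (R := (R : ℤ) + 3) (N0 := s + 1 + i) (N1 := a1 + b1)
    (N2 := a2 + b2) (r0 := r) (r1 := r1) (r2 := r2) (by linarith) (by linarith) (by linarith)
    (by linarith) ?_ ?_ ?_ (by linarith) (by linarith) (by linarith)
  · have : ((e : ℤ) + 1 - 1) = e := by ring
    rw [this]; linarith
  · have : ((e : ℤ) + 1 - 1) = e := by ring
    rw [this]
    have h2 : ((R : ℤ) + 3 - 1) = R + 2 := by ring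
    rw [h2]
    have ha1 : (0 : ℤ) ≤ a1 := Int.natCast_nonneg _
    linarith
  · have : ((e : ℤ) + 1 - 1) = e := by ring
    rw [this]
    have h2 : ((R : ℤ) + 3 - 2) = R + 1 := by ring
    rw [h2]
    have ha2 : (0 : ℤ) ≤ a2 := Int.natCast_nonneg _
    linarith

/-- **The numerical contradiction** (note 1713, `k = 0`), all `d ≥ 2`. -/
theorem numerics {d : ℕ} {G : ℕ → ℕ → ℕ → ℕ → ℕ → Prop} (h : Props d G) (hd : 2 ≤ d)
    {s i j r : ℕ} (hs : 2 ≤ s) (hsum : s + i + j = 3 * d - 3)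
    (hG : G (s + 1) i d r (i + 2 * j)) : False := by
  rcases Nat.lt_or_ge d 11 with hlt | hge
  · obtain ⟨h20, hrt0⟩ := h.rows _ _ _ _ _ hG
    have hc := check_eleven
    simp only [check, List.all_eq_true, List.mem_range] at hc
    have h1 := hc d hlt
    have e1 : decide (d < 2) = false := by simp; omega
    rw [e1] at h1
    simp only [Bool.false_or, List.all_eq_true, List.mem_range] at h1
    have h2 := h1 (s + 1 + i) (by omega)
    have e2 : decide (s + 1 + i < d + 2) = false := by simp; omega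
    have e3 : decide (3 * d - 2 < s + 1 + i) = false := by simp; omega
    rw [e2, e3] at h2
    simp only [Bool.false_or, List.all_eq_true, List.mem_range] at h2
    have h3 := h2 s (by omega)
    have e4 : decide (s < 2) = false := by simp; omega
    rw [e4] at h3
    simp only [Bool.false_or] at h3
    have e5 : (s + 1 + i - 1 - s) + 2 * (3 * d - 2 - (s + 1 + i)) = i + 2 * j := by omega
    rw [e5] at h3
    exact dead_sound (by omega) h 4 _ _ _ _ _ _ _ _ h3 rfl le_rfl (by omega) hG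
  · exact numerics_large h hge hs hsum hG

end Pool.Agent.H96.OP.Num
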